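import Pool.Agent.Helper460_CSP.Gap2

/-!
# Normal subgroups of `Out (F_n)` with a small derived Torelli image

Let `n ≥ 3`, and let `N` be a normal subgroup of finite index of `Aut (F_n)` which contains the
inner automorphisms (so `N` is the preimage of a normal subgroup of finite index of `Out (F_n)`).
Let `T` be the image of `IA_n` in `Aut (F_n) / N`. The theorem says that the following statements
are equivalent.

* `N` is a congruence subgroup defined by a finite characteristic quotient of `F_n` which is
  nilpotent of class at most two.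
* The derived subgroup `[T, T]` has fewer than `2 ^ ((n - 1) (n - 2) / 2)` elements.
* `N` contains, for some distinct indices `i`, `j`, `k`, the partial conjugation
  `x_i ↦ [x_j, x_k]⁻¹ x_i [x_j, x_k]` (all other generators are fixed).

There is no bound on the index of `N` or on the order of `T`. In particular `[T, T]` is trivial or
has at least `2 ^ ((n - 1) (n - 2) / 2)` elements.

Steps of the proof. (1) If `N` contains one of these partial conjugations, it contains all of them,
and the powers of the transvections with exponent the index of `N`; then `N` is a congruence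
subgroup by the theorems of Bass-Lazard-Serre-Mennicke, Magnus and Johnson (proved in Lean in
`Pool.Agent.Helper460_CSP`). (2) Let `θ (w)`, for a word `w` in the letters `x_1, …, x_m`,
`m = n - 1`, be the image in `Aut (F_n) / N` of the partial conjugation of `x_0` by `w`. As `N` is
normal, the kernel of `θ` is invariant under the transvections of `x_1, …, x_m`. For a subset `S` of
`{1, …, k - 1}` let `x_S` be the ordered product of the `x_l` with `l` in `S`, and consider the
products `∏_k [x_{S_k}, x_k]`. If two of them have the same image under `θ`, let `k` be the largest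
index where `S_k ≠ S_k'`, apply `x_k ↦ x_k u` and compare: `y = x_{S'}⁻¹ x_S` is such that `θ (y)`
centralises `θ (u)` for all words `u` without `x_k`. For `l` in `S` and not in `S'` apply the
transvection `x_l ↦ x_l x_p` to `y`: now `θ (x_p)` centralises `θ (u)` for all these `u`, and
`θ ([x_p, x_l]) = 1`. So either (1) applies or the `2 ^ (m (m - 1) / 2)` images, which are in
`[T, T]`, are distinct. (3) Conversely `[IA_n, IA_n]` acts trivially on `F_n / [[F_n, F_n], F_n]`.
-/

set_option autoImplicit false

namespace Pool.Agent.Results.MP_181555_al.DerivedTorelliGap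

open scoped commutatorElement

/-- The group `IA_n` of the automorphisms of `F_n` acting trivially on the abelianisation. -/
def IAn (n : ℕ) : Subgroup (MulAut (FreeGroup (Fin n))) where
  carrier := {φ | ∀ x, Abelianization.of (φ x) = Abelianization.of x}
  mul_mem' := fun {a b} ha hb x => (ha (b x)).trans (hb x)
  one_mem' := fun _ => rfl
  inv_mem' := fun {a} ha x => by
    have h := ha (a⁻¹ x)
    rw [MulAut.apply_inv_self] at h
    exact h.symm

/-- `Γ` is a congruence subgroup of `Out (F_n)` defined by a quotient of `F_n` which is nilpotent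
of class at most two. -/
def IsClassTwoCongruence (n : ℕ) (Γ : Subgroup (MulAut (FreeGroup (Fin n)))) : Prop :=
  ∃ K : Subgroup (FreeGroup (Fin n)), K.Characteristic ∧ K.FiniteIndex ∧
    (∀ x y z : FreeGroup (Fin n), ⁅⁅x, y⁆, z⁆ ∈ K) ∧
    ∀ ψ : MulAut (FreeGroup (Fin n)),
      (∃ g : FreeGroup (Fin n), ∀ x : FreeGroup (Fin n), ψ x * (g * x * g⁻¹)⁻¹ ∈ K) → ψ ∈ Γ

/-- `φ` is the partial conjugation of the `i`-th generator by the commutator of the `j`-th and the
`k`-th generator. -/
def IsPartialConj {n : ℕ} (i j k : Fin n) (φ : MulAut (FreeGroup (Fin n))) : Prop :=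
  φ (FreeGroup.of i) = ⁅FreeGroup.of j, FreeGroup.of k⁆⁻¹ * FreeGroup.of i *
    ⁅FreeGroup.of j, FreeGroup.of k⁆ ∧
  ∀ l, l ≠ i → φ (FreeGroup.of l) = FreeGroup.of l

/-- Let `n ≥ 3` and let `N` be a normal subgroup of finite index of `Aut (F_n)` containing the
inner automorphisms. Then `N` is a congruence subgroup defined by a quotient of class at most two
if and only if `N` contains `[IA_n, IA_n]`, if and only if the image of `[IA_n, IA_n]` in
`Aut (F_n) / N` has fewer than `2 ^ ((n - 1) (n - 2) / 2)` elements, and if and only if `N`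
contains the partial conjugation of some generator by the commutator of two other generators. -/
theorem result : ∀ n : ℕ, 3 ≤ n → ∀ N : Subgroup (MulAut (FreeGroup (Fin n))), N.Normal →
    N.FiniteIndex → (∀ g : FreeGroup (Fin n), MulAut.conj g ∈ N) →
    (IsClassTwoCongruence n N ↔ ⁅IAn n, IAn n⁆ ≤ N) ∧
    (IsClassTwoCongruence n N ↔
      N.relIndex ⁅IAn n, IAn n⁆ < 2 ^ ((n - 1) * (n - 2) / 2)) ∧
    (IsClassTwoCongruence n N ↔
      ∃ i j k : Fin n, i ≠ j ∧ i ≠ k ∧ j ≠ k ∧ ∃ φ ∈ N, IsPartialConj i j k φ) := by
  intro n hn N hN hfi hinn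
  obtain ⟨h1, h2⟩ := Helper460_CSP.gap_main hn N hN hfi hinn
  have h0 : IsClassTwoCongruence n N ↔ ⁅IAn n, IAn n⁆ ≤ N := by
    refine ⟨fun h => Helper460_CSP.comm_IA_le_of_C2 h, fun h => h1.2 ?_⟩
    have e1 : N.relIndex ⁅IAn n, IAn n⁆ = 1 := Subgroup.relIndex_eq_one.2 h
    have e2 : 2 * 1 ≤ (n - 1) * (n - 2) := Nat.mul_le_mul (by omega) (by omega)
    have e3 : 1 < 2 ^ ((n - 1) * (n - 2) / 2) := Nat.one_lt_two_pow (by omega)
    exact e1.trans_lt e3
  refine ⟨h0, h1, h2.trans ?_⟩
  constructor
  · rintro ⟨i, j, k, hij, hik, hjk, h⟩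
    refine ⟨i, j, k, hij, hik, hjk, _, h, ?_, fun l hl => Helper460_OutF.cc_ne hl _⟩
    rw [Helper460_OutF.cc_self, map_commutatorElement, Helper460_OutF.kil_ne hij.symm,
      Helper460_OutF.kil_ne hik.symm]
  · rintro ⟨i, j, k, hij, hik, hjk, φ, h, h3, h4⟩
    refine ⟨i, j, k, hij, hik, hjk, ?_⟩
    have e : Helper460_OutF.cc i ⁅FreeGroup.of j, FreeGroup.of k⁆ = φ := by
      apply Helper460_OutF.aut_ext
      intro l
      by_cases hl : l = i
      · subst hl
        rw [Helper460_OutF.cc_self, map_commutatorElement, Helper460_OutF.kil_ne hij.symm,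
          Helper460_OutF.kil_ne hik.symm, h3]
      · rw [Helper460_OutF.cc_ne hl, h4 l hl]
    rw [e]
    exact h

end Pool.Agent.Results.MP_181555_al.DerivedTorelliGap
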