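import Pool.Agent.Helper460_CSP.SmallIdx

/-!
# Subgroups of `Out (F_n)` with a large intersection with the Torelli group

Let `n ≥ 3`, and let `IA_n ≤ Aut (F_n)` be the group of the automorphisms acting trivially on the
abelianisation of `F_n`. Let `Γ ≤ Aut (F_n)` be a subgroup of finite index which contains the inner
automorphisms, not necessarily normal; so `Γ` is the preimage of a subgroup of finite index of
`Out (F_n)`, of any index, and `Γ.relIndex IA_n` is the index of `Γ ∩ IA_n` in `IA_n`.

Suppose that `[IA_n : Γ ∩ IA_n] ≤ 2 ^ (n - 2)`, or, more generally, that every element of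
`IA_n` outside `Γ` has a nontrivial image under some homomorphism with finite image from `IA_n` to
`GL_d (ℂ)` with `d < 2 ^ (n - 2)`. Then `Γ` is a congruence subgroup: there is a characteristic
subgroup `K` of finite index in `F_n` such that every automorphism which acts on `F_n / K` as an
inner automorphism is in `Γ`. Moreover `F_n / K` is nilpotent of class at most two, so `Γ` also
contains all automorphisms acting trivially on `F_n / [[F_n, F_n], F_n]`, in particular
`[IA_n, IA_n]`.

Steps of the proof. (1) Let `c` be the partial conjugation of `x_i` by `[x_j, x_k]`; it is the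
commutator of the partial conjugations `a`, `b` by `x_j` and `x_k`. For the `n - 3` other indices
`l` let `u_l` be the transvection of `x_l` by `[x_j, x_k]` and `v_l` the partial conjugation of
`x_i` by `x_l`. Then `[u_l, v_l] = c ^ ± 1`, the `u_l` commute with each other, with `a`, `b` and
with `v_m`, `m ≠ l`, and this forces the degree of a representation of `IA_n` with `c` of finite
order and not in the kernel to be at least `2 ^ (n - 2)`. So `Γ` contains the conjugates of `c`,
and the inner automorphisms, and the `M`-th powers of the elementary transvections for some `M`.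
(2) The image of `IA_n` in the quotient of `Aut (F_n)` by the normal closure of the inner
automorphisms and the `c` is abelian and generated by the images of the Magnus generators (proved
here by an argument in the style of Silvester, with the coset space of a vector stabiliser), and by
the Johnson homomorphism an element of `IA_n` acting trivially modulo `M` on the quotient of class
two of `F_n` is in the normal subgroup generated by the elements in (1).
(3) By the theorem of Bass, Lazard, Serre and Mennicke (proved here in full) the matrices in
`SL_n (ℤ)` congruent to `1` modulo `4 M` are products of conjugates of `4 M`-th powers of elementary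
matrices, so they lift to `Γ`, and (2) applies to the quotient.
-/

set_option autoImplicit false

namespace Pool.Agent.Results.MP_181555_al.SmallTorelliIndex

open scoped commutatorElement

/-- The group `IA_n` of the automorphisms of `F_n` acting trivially on the abelianisation. -/
def IAn (n : ℕ) : Subgroup (MulAut (FreeGroup (Fin n))) where
  carrier := {φ | ∀ x, Abelianization.of (φ x) = Abelianization.of x}
  mul_mem' := fun {a b} ha hb x => (ha (b x)).trans (hb x)
  one_mem' := fun _ => rfl
  inv_mem' := fun {a} ha x => by
    have h := ha (a⁻¹ x)
    rw [MulAut.apply_inv_self] at h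
    exact h.symm

/-- `Γ` is a congruence subgroup of `Out (F_n)` defined by a quotient of `F_n` which is nilpotent
of class at most two. -/
def IsClassTwoCongruence (n : ℕ) (Γ : Subgroup (MulAut (FreeGroup (Fin n)))) : Prop :=
  ∃ K : Subgroup (FreeGroup (Fin n)), K.Characteristic ∧ K.FiniteIndex ∧
    (∀ x y z : FreeGroup (Fin n), ⁅⁅x, y⁆, z⁆ ∈ K) ∧
    ∀ ψ : MulAut (FreeGroup (Fin n)),
      (∃ g : FreeGroup (Fin n), ∀ x : FreeGroup (Fin n), ψ x * (g * x * g⁻¹)⁻¹ ∈ K) → ψ ∈ Γ

/-- Let `n ≥ 3` and let `Γ` be a subgroup of finite index of `Aut (F_n)` containing the inner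
automorphisms. If `Γ ∩ IA_n` has index at most `2 ^ (n - 2)` in `IA_n`, or if every element of
`IA_n` outside `Γ` is detected by a homomorphism with finite image from `IA_n` to `GL_d (ℂ)` for
some `d < 2 ^ (n - 2)`, then `Γ` contains every automorphism acting as an inner automorphism on
`F_n / K` for some characteristic subgroup `K` of finite index with `F_n / K` nilpotent of class
at most two. -/
theorem result : ∀ n : ℕ, 3 ≤ n → ∀ Γ : Subgroup (MulAut (FreeGroup (Fin n))), Γ.FiniteIndex →
    (∀ g : FreeGroup (Fin n), MulAut.conj g ∈ Γ) →
    (Γ.relIndex (IAn n) ≤ 2 ^ (n - 2) ∨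
      ∀ x : IAn n, (x : MulAut (FreeGroup (Fin n))) ∉ Γ → ∃ d, d < 2 ^ (n - 2) ∧
        ∃ ρ : IAn n →* Matrix.GeneralLinearGroup (Fin d) ℂ, Finite ρ.range ∧ ρ x ≠ 1) →
    IsClassTwoCongruence n Γ :=
  fun _ hn Γ hfi hinn h => Helper460_CSP.main_csp hn Γ hfi hinn h

end Pool.Agent.Results.MP_181555_al.SmallTorelliIndex
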